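import Pool.Agent.Lib.MP_c35813_pr.Mg.G008
import Pool.Agent.Lib.MP_c35813_pr.Mg.G011

set_option autoImplicit false

/-! Task F3: the assembly, all the times. -/

namespace Pool.Agent.RWO

open MeasureTheory Filter
open scoped NNReal ENNReal Topology

variable {d : ℕ}

open scoped Classical in
/-- In every box of polylogarithmic side near `0` there are few sites with a good chance to survive. -/
def fewB (θ CB : ℝ) (ω : Env d) (n : ℕ) : Prop :=
  ∀ z ∈ bx d n, (((bxc z (Lf n)).filter (fun u => θ * (2 * d : ℝ) ^ (kf d n) ≤ (NP (opn ω) u (kf d n) : ℝ))).card : ℝ) ≤ CB * Real.log n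

/-- The deterministic theorem, all the times. -/
theorem det3 (hd : 2 ≤ d) (C₀ ε : ℝ) (hC : 0 < C₀) (hε : 0 < ε) : ∃ θ : ℝ, 0 < θ ∧ ∀ CB : ℝ, 0 < CB → ∃ a : ℝ, 0 < a ∧ ∃ n₀ : ℕ, ∀ n : ℕ, n₀ ≤ n →
    ∀ ω : Env d, (2 * d : ℝ) ^ n * Real.exp (-(C₀ * n * (Real.log n) ^ (-(2 / d : ℝ)))) ≤ NP (opn ω) 0 n → fewB θ CB ω n →
    ∀ t : ℕ, t ≤ n → Real.log n ^ 7 ≤ t → ∀ A : Finset (V d), (A.card : ℝ) ≤ a * Real.log n → condProb ω n t A ≤ ε := by
  obtain ⟨θ, hθ, h⟩ := det_all hd C₀ ε hC hε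
  refine ⟨θ, hθ, fun CB hCB => ?_⟩
  obtain ⟨a, ha, n₀, h⟩ := h CB hCB
  refine ⟨a, ha, n₀, fun n hn ω hω hB t ht0 ht1 A hA => ?_⟩
  have hNP : (0 : ℝ) < NP (opn ω) 0 n := by
    refine lt_of_lt_of_le ?_ hω
    have : (0 : ℝ) < d := by exact_mod_cast (by omega : 0 < d)
    positivity
  have key : ((PR (opn ω) 0 (A : Set (V d)) t (n - t)).card : ℝ) ≤ ε * NP (opn ω) 0 n := by
    refine h n hn (opn ω) 0 hω (fun z hz => ?_) t (n - t) (by omega) ht1 A hA
    refine le_trans (le_of_eq ?_) (hB z (E2_mem_bx.2 fun i => ?_))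
    · congr
    · have := hz i
      simpa using this
  unfold condProb
  rw [card_surv_A ω n t ht0 A, card_surv, div_le_iff₀ hNP]
  exact key

/-- The uniform statement, all the times. -/
theorem main_uniform3 (hd : 2 ≤ d) (p : ℝ≥0) (hp0 : 0 < p) (hp : p ≤ 1) (hp1 : p < 1) (ε : ℝ) (hε : 0 < ε) :
    ∃ a : ℝ, 0 < a ∧ Tendsto (fun n : ℕ => condEnv d p hp {ω | ∃ t : ℕ, t ≤ n ∧ Real.log n ^ 7 ≤ t ∧
      ∃ A : Finset (V d), (A.card : ℝ) ≤ a * Ln d p n ∧ ε < condProb ω n t A}) atTop (𝓝 0) := by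
  obtain ⟨C₀, hC₀, hE⟩ := env_main (by omega : 1 ≤ d) p hp0 hp hp1
  obtain ⟨θ, hθ, hdet⟩ := det3 hd C₀ ε hC₀ hε
  obtain ⟨CB, hCB, hF⟩ := env_few hd p hp0 hp hp1 θ hθ
  obtain ⟨a, ha, n₀, hdet⟩ := hdet CB hCB
  have hL := Ln_pos hd p hp0 hp1
  refine ⟨a / ((d : ℝ) / Real.log (1 / (p : ℝ))), by positivity, ?_⟩
  by_cases h0 : PP d p hp {ω | Inf ω} = 0
  · have hz : condEnv d p hp = 0 := by
      unfold condEnv
      have e : {ω : Env d | InfCluster ω} = {ω : Env d | Inf ω} := by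
        ext ω
        exact InfCluster_iff ω
      rw [e]
      exact ProbabilityTheory.cond_eq_zero_of_meas_eq_zero h0
    simp only [hz, Measure.coe_zero, Pi.zero_apply]
    exact tendsto_const_nhds
  have hT : Tendsto (fun n : ℕ => (PP d p hp {ω | Inf ω})⁻¹ * (PP d p hp {ω | Inf ω ∧
      (NP (opn ω) 0 n : ℝ) < (2 * d : ℝ) ^ n * Real.exp (-(C₀ * n * (Real.log n) ^ (-(2 / d : ℝ))))} +
      PP d p hp {ω | ¬ fewB θ CB ω n})) atTop (𝓝 0) := by
    have hF' : Tendsto (fun n : ℕ => PP d p hp {ω | ¬ fewB θ CB ω n}) atTop (𝓝 0) := by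
      refine hF.congr fun n => ?_
      congr 1
      ext ω
      simp only [Set.mem_setOf_eq, fewB]
      push_neg
      rfl
    have h1 := hE.add hF'
    rw [add_zero] at h1
    have := ENNReal.Tendsto.const_mul h1 (a := (PP d p hp {ω | Inf ω})⁻¹) (Or.inr (by simp [h0]))
    rwa [mul_zero] at this
  refine tendsto_of_tendsto_of_tendsto_of_le_of_le' tendsto_const_nhds hT (Eventually.of_forall fun n => bot_le) ?_
  filter_upwards [eventually_ge_atTop n₀] with n hn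
  refine (F2_le p hp _).trans (mul_le_mul' le_rfl (le_trans (measure_mono ?_) (measure_union_le _ _)))
  rintro ω ⟨h1, t, ht0, ht1, A, hA, hε'⟩
  by_cases hB : fewB θ CB ω n
  swap
  · exact Or.inr hB
  refine Or.inl ⟨h1, ?_⟩
  by_contra h2
  rw [not_lt] at h2
  have hA' : (A.card : ℝ) ≤ a * Real.log n := by
    refine hA.trans (le_of_eq ?_)
    unfold Ln
    have hy : Real.log (1 / (p : ℝ)) ≠ 0 := fun h => by
      rw [h, div_zero] at hL
      exact lt_irrefl _ hL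
    have hd0 : (d : ℝ) ≠ 0 := by exact_mod_cast (by omega : d ≠ 0)
    generalize Real.log (1 / (p : ℝ)) = y at hy
    field_simp
  exact absurd (hdet n hn ω h2 hB t ht0 ht1 A hA') (not_le.2 hε')

/-- The times of the problem are eventually at least `(log n)^7`. -/
theorem times_ev (d : ℕ) (t : ℕ → ℕ) (ht : Tendsto (fun n : ℕ => (t n : ℝ) * Real.log n ^ (2 / d : ℝ) / n) atTop atTop) :
    ∀ᶠ n : ℕ in atTop, Real.log n ^ 7 ≤ t n := by
  have h1 := ht.eventually_ge_atTop 1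
  have h2 : ∀ᶠ n : ℕ in atTop, Real.log n ^ 9 ≤ n := by
    have h := (Real.isLittleO_pow_log_id_atTop (n := 9)).bound (show (0 : ℝ) < 1 by norm_num)
    have h' := tendsto_natCast_atTop_atTop (R := ℝ) |>.eventually h
    filter_upwards [h'] with n hn
    rw [one_mul, Real.norm_eq_abs, Real.norm_eq_abs, id, Nat.abs_cast] at hn
    exact (le_abs_self _).trans hn
  filter_upwards [h1, h2, eventually_ge_atTop 3] with n hn1 hn2 hn3
  have hn : (0 : ℝ) < n := by exact_mod_cast (by omega : 0 < n)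
  have hl : 1 ≤ Real.log n := by
    rw [Real.le_log_iff_exp_le hn]
    have : Real.exp 1 < 3 := Real.exp_one_lt_three
    have h3 : (3 : ℝ) ≤ n := by exact_mod_cast hn3
    linarith
  have h4 : Real.log n ^ (2 / d : ℝ) ≤ Real.log n ^ 2 := by
    rw [← Real.rpow_two]
    refine Real.rpow_le_rpow_of_exponent_le hl ?_
    rcases Nat.eq_zero_or_pos d with h | h
    · subst h
      simp
    · have : (1 : ℝ) ≤ d := by exact_mod_cast h
      rw [div_le_iff₀ (by linarith)]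
      linarith
  rw [le_div_iff₀ hn, one_mul] at hn1
  have h5 : (n : ℝ) ≤ t n * Real.log n ^ 2 := hn1.trans (mul_le_mul_of_nonneg_left h4 (Nat.cast_nonneg _))
  have h6 : Real.log n ^ 7 * Real.log n ^ 2 ≤ t n * Real.log n ^ 2 := by
    refine le_trans (le_of_eq ?_) (hn2.trans h5)
    ring
  exact le_of_mul_le_mul_right h6 (by positivity)

/-- Q2. -/
theorem main_Q2_all (hd : 2 ≤ d) (p : ℝ≥0) (hp0 : 0 < p) (hp : p ≤ 1) (hp1 : p < 1) (t : ℕ → ℕ) (ht0 : ∀ n, t n ≤ n)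
    (ht : Tendsto (fun n : ℕ => (t n : ℝ) * Real.log n ^ (2 / d : ℝ) / n) atTop atTop) (A : ℕ → Env d → Finset (V d))
    (hA : ∀ η : ℝ, 0 < η → Tendsto (fun n : ℕ => condEnv d p hp {ω | η * Ln d p n < ((A n ω).card : ℝ)}) atTop (𝓝 0)) (ε : ℝ) (hε : 0 < ε) :
    Tendsto (fun n : ℕ => condEnv d p hp {ω | ε < condProb ω n (t n) (A n ω)}) atTop (𝓝 0) := by
  obtain ⟨a, ha, hT⟩ := main_uniform3 hd p hp0 hp hp1 ε hε
  have hS := hT.add (hA a ha)
  rw [add_zero] at hS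
  refine tendsto_of_tendsto_of_tendsto_of_le_of_le' tendsto_const_nhds hS (Eventually.of_forall fun n => bot_le) ?_
  filter_upwards [times_ev d t ht] with n hn
  refine le_trans (measure_mono ?_) (measure_union_le _ _)
  intro ω hω
  by_cases h : a * Ln d p n < ((A n ω).card : ℝ)
  · exact Or.inr h
  · exact Or.inl ⟨t n, ht0 n, hn, A n ω, not_lt.1 h, hω⟩

end Pool.Agent.RWO
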